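import Pool.Agent.U3.WT.Comp

/-!
# `PTile_FIN` is arithmetical: it is the difference of two recursively enumerable sets

If every tiling of the plane by a finite set of Wang tiles is periodic, then the periods of all
the tilings can be chosen bounded, and there is a finite certificate for this.
-/

set_option autoImplicit false

namespace Pool.Agent.Results.MP_da2aca_lc.PeriodicTilesArithmetical

open Pool.Agent.U3.WT

theorem result :
    (∀ S : List Tile, AllPeriodic S → ∃ k : ℕ, ∀ T, IsTiling S T →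
      ∃ v : ℤ × ℤ, v ≠ 0 ∧ |v.1| ≤ k ∧ |v.2| ≤ k ∧ ∀ p, T (p + v) = T p) ∧
    REPred AllPeriodic ∧
    REPred (fun S => ¬ Tiles S) ∧
    IsSigma 2 (List Tile) PTile ∧
    IsSigma 2 (List Tile) (fun S => ¬ PTile S) ∧
    IsSigma 2 ℕ (Codes PTile) ∧
    Arithmetical ℕ (Codes PTile) := by
  refine ⟨fun S hS => ?_, re_allPeriodic, re_not_tiles, sigma_two, sigma_two',
    sigma_codes sigma_two, ⟨2, sigma_codes sigma_two⟩⟩
  obtain ⟨k, hk⟩ := bounded_periods hS
  refine ⟨k, fun T hT => ?_⟩
  obtain ⟨v, h1, h2, h3⟩ := hk T hT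
  exact ⟨v, h1, h2.1, h2.2, h3⟩

end Pool.Agent.Results.MP_da2aca_lc.PeriodicTilesArithmetical
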